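import Pool.Agent.H81.LO.BS

/-!
# The power trick

`a`, `g` in a group, `d = a⁻¹ g⁻¹ a g` an involution, and `[a, a^h]² = 1` for all `h` in a subgroup `K`
which contains `a`, `g`.  Then all `a⁻ⁱ d aⁱ` commute, so that `[aⁿ, g]² = 1` for all `n`.
-/

set_option autoImplicit false

namespace Pool.Agent.H6.E2

variable {M : Type*} [Group M]

/-- `a⁻ⁱ d aⁱ` -/
def dd (a d : M) (i : ℕ) : M := (a ^ i)⁻¹ * d * a ^ i

/-- `d_(n-1) ⋯ d_1 d_0` -/
def PP (a d : M) : ℕ → M
  | 0 => 1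
  | n + 1 => dd a d n * PP a d n

theorem dd_zero (a d : M) : dd a d 0 = d := by simp [dd]

theorem dd_succ (a d : M) (i : ℕ) : dd a d (i + 1) = a⁻¹ * dd a d i * a := by
  unfold dd; rw [pow_succ]; group

theorem dd_add (a d : M) (i j : ℕ) : dd a d (i + j) = (a ^ j)⁻¹ * dd a d i * a ^ j := by
  unfold dd; rw [pow_add]; group

theorem dd_sq {a d : M} (hd : d * d = 1) (i : ℕ) : dd a d i * dd a d i = 1 := by
  unfold dd
  calc (a ^ i)⁻¹ * d * a ^ i * ((a ^ i)⁻¹ * d * a ^ i) = (a ^ i)⁻¹ * (d * d) * a ^ i := by group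
    _ = 1 := by rw [hd]; group

theorem PP_shift (a d : M) (n : ℕ) : PP a d (n + 1) = a⁻¹ * PP a d n * a * d := by
  induction n with
  | zero => simp [PP, dd_zero]
  | succ n ih =>
    calc PP a d (n + 1 + 1) = dd a d (n + 1) * PP a d (n + 1) := rfl
      _ = (a⁻¹ * dd a d n * a) * (a⁻¹ * PP a d n * a * d) := by rw [ih, dd_succ]
      _ = a⁻¹ * (dd a d n * PP a d n) * a * d := by group
      _ = a⁻¹ * PP a d (n + 1) * a * d := rfl

theorem PP_eq (a g : M) (n : ℕ) :
    (a ^ n)⁻¹ * g⁻¹ * a ^ n * g = PP a (a⁻¹ * g⁻¹ * a * g) n := by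
  induction n with
  | zero => simp [PP]
  | succ n ih =>
    rw [PP_shift, ← ih, pow_succ]
    group

theorem comm_PP {a d x : M} {n : ℕ} (hx : ∀ i < n, Commute x (dd a d i)) :
    Commute x (PP a d n) := by
  induction n with
  | zero => exact Commute.one_right x
  | succ n ih =>
    exact (hx n (Nat.lt_succ_self n)).mul_right (ih fun i hi => hx i (Nat.lt_succ_of_lt hi))

/-- two elements of square one whose product has square one commute -/
theorem comm_of_sq {x y : M} (hx : x * x = 1) (hy : y * y = 1) (hxy : x * y * (x * y) = 1) :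
    Commute x y := by
  have hx' : x⁻¹ = x := inv_eq_of_mul_eq_one_left hx
  have hy' : y⁻¹ = y := inv_eq_of_mul_eq_one_left hy
  have h1 : x * y = (x * y)⁻¹ := (inv_eq_of_mul_eq_one_left hxy).symm
  unfold Commute SemiconjBy
  rw [h1, mul_inv_rev, hx', hy']

theorem comm_conj {x y : M} (h : Commute x y) (g : M) : Commute (g⁻¹ * x * g) (g⁻¹ * y * g) := by
  unfold Commute SemiconjBy
  calc g⁻¹ * x * g * (g⁻¹ * y * g) = g⁻¹ * (x * y) * g := by group
    _ = g⁻¹ * (y * x) * g := by rw [h.eq]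
    _ = _ := by group

theorem last_step {x y w d : M} (c1 : Commute w d) (c2 : Commute y x) (c3 : Commute x w)
    (c4 : Commute x d) (c5 : Commute y w) (q1 : x * x = 1) (q3 : w * w = 1)
    (h : x * y * (w * d) * (x * y * (w * d)) = 1) : y * d * (y * d) = 1 := by
  have hxw : Commute (x * w) (y * d) := by
    have e1 : Commute x y := c2.symm
    have e2 : Commute x d := c4
    have e3 : Commute w y := c5.symm
    have e4 : Commute w d := c1
    exact (e1.mul_left e3).mul_right (e2.mul_left e4)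
  have h12 : x * y * (w * d) = x * w * (y * d) := by
    calc x * y * (w * d) = x * (y * w) * d := by group
      _ = x * (w * y) * d := by rw [c5.eq]
      _ = _ := by group
  have h13 : x * w * (x * w) = 1 := by
    calc x * w * (x * w) = x * (w * x) * w := by group
      _ = x * (x * w) * w := by rw [c3.eq]
      _ = (x * x) * (w * w) := by group
      _ = 1 := by rw [q1, q3]; group
  rw [h12] at h
  calc y * d * (y * d) = (x * w * (x * w)) * (y * d * (y * d)) := by rw [h13, one_mul]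
    _ = x * w * ((x * w) * (y * d)) * (y * d) := by group
    _ = x * w * ((y * d) * (x * w)) * (y * d) := by rw [hxw.eq]
    _ = x * w * (y * d) * (x * w * (y * d)) := by group
    _ = 1 := h

/-- all `d_i` commute -/
theorem dd_comm {K : Subgroup M} {a g : M} (ha : a ∈ K) (hg : g ∈ K)
    (hd : (a⁻¹ * g⁻¹ * a * g) * (a⁻¹ * g⁻¹ * a * g) = 1)
    (hc : ∀ h ∈ K, (a⁻¹ * (h⁻¹ * a * h)⁻¹ * a * (h⁻¹ * a * h)) *
      (a⁻¹ * (h⁻¹ * a * h)⁻¹ * a * (h⁻¹ * a * h)) = 1) (k : ℕ) :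
    Commute (a⁻¹ * g⁻¹ * a * g) (dd a (a⁻¹ * g⁻¹ * a * g) k) := by
  obtain ⟨d, hd0⟩ : ∃ d, d = a⁻¹ * g⁻¹ * a * g := ⟨_, rfl⟩
  rw [← hd0] at hd ⊢
  -- for `m` with `a m = h⁻¹ a h`
  have key : ∀ m h : M, h ∈ K → a * m = h⁻¹ * a * h →
      (a⁻¹ * m⁻¹ * a * m) * (a⁻¹ * m⁻¹ * a * m) = 1 := by
    intro m h hh hm
    have h1 := hc h hh
    rw [← hm] at h1
    calc (a⁻¹ * m⁻¹ * a * m) * (a⁻¹ * m⁻¹ * a * m)
        = a⁻¹ * (a * m)⁻¹ * a * (a * m) * (a⁻¹ * (a * m)⁻¹ * a * (a * m)) := by group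
      _ = 1 := h1
  have hdK : d ∈ K := by
    rw [hd0]
    exact K.mul_mem (K.mul_mem (K.mul_mem (K.inv_mem ha) (K.inv_mem hg)) ha) hg
  have hddK : ∀ i, dd a d i ∈ K := fun i =>
    K.mul_mem (K.mul_mem (K.inv_mem (K.pow_mem ha i)) hdK) (K.pow_mem ha i)
  have hPK : ∀ n, PP a d n ∈ K := by
    intro n
    induction n with
    | zero => exact K.one_mem
    | succ n ih => exact K.mul_mem (hddK n) ih
  induction k using Nat.strong_induction_on with
  | _ k ih =>
    -- shifted induction hypothesis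
    have ih' : ∀ i j, j < k → Commute (dd a d i) (dd a d (j + i)) := by
      intro i j hj
      have h1 := ih j hj
      rw [dd_add]
      exact comm_conj h1 (a ^ i)
    have ih'' : ∀ i l, i ≤ l → l < i + k → Commute (dd a d i) (dd a d l) := by
      intro i l h1 h2
      obtain ⟨j, rfl⟩ := Nat.exists_eq_add_of_le' h1
      exact ih' i j (by omega)
    have hall : ∀ i l, i < l + k → l < i + k → Commute (dd a d i) (dd a d l) := by
      intro i l h1 h2
      rcases le_total i l with h3 | h3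
      · exact ih'' i l h3 h2
      · exact (ih'' l i h3 h1).symm
    match k, ih, ih', ih'', hall with
    | 0, _, _, _, _ => rw [dd_zero]
    | 1, _, _, _, _ =>
      have h1 := key d g hg (by rw [hd0]; group)
      have hd' : d⁻¹ = d := inv_eq_of_mul_eq_one_left hd
      rw [hd'] at h1
      have h2 : dd a d 1 = a⁻¹ * d * a := by simp [dd]
      rw [h2]
      exact (comm_of_sq (by rw [← h2]; exact dd_sq hd 1) hd
        (by rw [← h1])).symm
    | k + 2, _, _, _, hall =>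
      -- `m0 = d_k ⋯ d_0`
      obtain ⟨m0, hm0⟩ : ∃ m0, m0 = PP a d (k + 1) := ⟨_, rfl⟩
      obtain ⟨c, hc0⟩ : ∃ c, c = a⁻¹ * m0 * a := ⟨_, rfl⟩
      have h1 : dd a d (k + 1) * m0 = c * d := by
        rw [hc0, hm0, ← PP_shift]; rfl
      -- `d_(k+1)` commutes with `m0 ^ a`
      have h2 : Commute (dd a d (k + 1)) c := by
        have h3 : Commute (dd a d (k + 1)) (c * d) := by
          rw [← h1, hm0]
          refine (Commute.refl _).mul_right (comm_PP ?_)
          intro i hi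
          exact hall _ _ (by omega) (by omega)
        have h4 : Commute (dd a d (k + 1)) d := by
          have := hall (k + 1) 0 (by omega) (by omega)
          rwa [dd_zero] at this
        have h5 : c = c * d * d⁻¹ := by group
        rw [h5]
        exact h3.mul_right h4.inv_right
      have hk1 : dd a d (k + 1) * dd a d (k + 1) = 1 := dd_sq hd _
      have hk1' : (dd a d (k + 1))⁻¹ = dd a d (k + 1) := inv_eq_of_mul_eq_one_left hk1
      -- `m := (m0⁻¹)^a m0 = d_(k+1) d_0`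
      have h6 : a * (dd a d (k + 1) * d) = m0⁻¹ * a * m0 := by
        have h7 : m0 = dd a d (k + 1) * (c * d) := by
          rw [← h1, ← mul_assoc, hk1, one_mul]
        have h8 : m0⁻¹ * a * m0 = a * (c⁻¹ * m0) := by rw [hc0]; group
        rw [h8, h7, ← mul_assoc (dd a d (k + 1)) c d, h2.eq]
        group
      have h9 := key _ m0 (by rw [hm0]; exact hPK _) h6
      have hd' : d⁻¹ = d := inv_eq_of_mul_eq_one_left hd
      have c1 : Commute (dd a d (k + 1)) d := by
        have := hall (k + 1) 0 (by omega) (by omega)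
        rwa [dd_zero] at this
      have c2 : Commute (dd a d (k + 2)) (dd a d 1) := hall _ _ (by omega) (by omega)
      have c3 : Commute (dd a d 1) (dd a d (k + 1)) := by
        exact hall _ _ (by omega) (by omega)
      have c4 : Commute (dd a d 1) d := by
        have := hall 1 0 (by omega) (by omega)
        rwa [dd_zero] at this
      have c5 : Commute (dd a d (k + 2)) (dd a d (k + 1)) := hall _ _ (by omega) (by omega)
      have h10 : a⁻¹ * (dd a d (k + 1) * d)⁻¹ * a = dd a d 1 * dd a d (k + 2) := by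
        rw [mul_inv_rev, hk1', hd', dd_succ a d (k + 1)]
        have : dd a d 1 = a⁻¹ * d * a := by simp [dd]
        rw [this]; group
      rw [h10] at h9
      -- `(d_1 d_(k+2) d_(k+1) d_0)² = 1`
      have q1 : dd a d 1 * dd a d 1 = 1 := dd_sq hd 1
      have q2 : dd a d (k + 2) * dd a d (k + 2) = 1 := dd_sq hd _
      have h11 : dd a d (k + 2) * d * (dd a d (k + 2) * d) = 1 := by
        refine last_step c1 c2 c3 c4 c5 q1 hk1 ?_
        rw [← mul_assoc (dd a d 1 * dd a d (k + 2) * (dd a d (k + 1) * d))] at h9 ⊢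
        rw [← h9]
      exact (comm_of_sq q2 hd h11).symm

/-- the power trick: `[aⁿ, g]² = 1` -/
theorem pow_trick {K : Subgroup M} {a g : M} (ha : a ∈ K) (hg : g ∈ K)
    (hd : (a⁻¹ * g⁻¹ * a * g) * (a⁻¹ * g⁻¹ * a * g) = 1)
    (hc : ∀ h ∈ K, (a⁻¹ * (h⁻¹ * a * h)⁻¹ * a * (h⁻¹ * a * h)) *
      (a⁻¹ * (h⁻¹ * a * h)⁻¹ * a * (h⁻¹ * a * h)) = 1) (n : ℕ) :
    ((a ^ n)⁻¹ * g⁻¹ * a ^ n * g) * ((a ^ n)⁻¹ * g⁻¹ * a ^ n * g) = 1 := by
  have h0 := dd_comm ha hg hd hc
  obtain ⟨d, hd0⟩ : ∃ d, d = a⁻¹ * g⁻¹ * a * g := ⟨_, rfl⟩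
  rw [PP_eq]
  rw [← hd0] at hd h0 ⊢
  have hall : ∀ i j, Commute (dd a d i) (dd a d (j + i)) := by
    intro i j
    have h1 := h0 j
    rw [dd_add]
    exact comm_conj h1 (a ^ i)
  induction n with
  | zero => simp [PP]
  | succ n ih =>
    have h1 : PP a d (n + 1) = dd a d n * PP a d n := rfl
    have h2 : Commute (dd a d n) (PP a d n) := by
      refine comm_PP fun i hi => ?_
      obtain ⟨j, rfl⟩ := Nat.exists_eq_add_of_le' hi.le
      exact (hall i j).symm
    rw [h1]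
    calc dd a d n * PP a d n * (dd a d n * PP a d n)
        = dd a d n * (PP a d n * dd a d n) * PP a d n := by group
      _ = dd a d n * (dd a d n * PP a d n) * PP a d n := by rw [h2.eq]
      _ = (dd a d n * dd a d n) * (PP a d n * PP a d n) := by group
      _ = 1 := by rw [dd_sq hd, ih, one_mul]

/-- `S` normal in `K`, all commutators of elements of `S` have square one; then the same for the powers -/
theorem pow_trick2 {K : Subgroup M} {S : Set M} (hSK : ∀ a ∈ S, a ∈ K)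
    (hS : ∀ h ∈ K, ∀ a ∈ S, h⁻¹ * a * h ∈ S)
    (hcc : ∀ a ∈ S, ∀ b ∈ S, (a⁻¹ * b⁻¹ * a * b) * (a⁻¹ * b⁻¹ * a * b) = 1)
    {a b : M} (ha : a ∈ S) (hb : b ∈ S) (n k : ℕ) :
    ((a ^ n)⁻¹ * (b ^ k)⁻¹ * a ^ n * b ^ k) * ((a ^ n)⁻¹ * (b ^ k)⁻¹ * a ^ n * b ^ k) = 1 := by
  have h1 := pow_trick (hSK a ha) (hSK b hb) (hcc a ha b hb)
    (fun h hh => hcc a ha _ (hS h hh a ha)) n
  have h2 : (b⁻¹ * (a ^ n)⁻¹ * b * a ^ n) * (b⁻¹ * (a ^ n)⁻¹ * b * a ^ n) = 1 := by
    have : (b⁻¹ * (a ^ n)⁻¹ * b * a ^ n) * (b⁻¹ * (a ^ n)⁻¹ * b * a ^ n) =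
      (((a ^ n)⁻¹ * b⁻¹ * a ^ n * b) * ((a ^ n)⁻¹ * b⁻¹ * a ^ n * b))⁻¹ := by group
    rw [this, h1, inv_one]
  have h3 := pow_trick (hSK b hb) (K.pow_mem (hSK a ha) n) h2
    (fun h hh => hcc b hb _ (hS h hh b hb)) k
  have h4 : ((a ^ n)⁻¹ * (b ^ k)⁻¹ * a ^ n * b ^ k) * ((a ^ n)⁻¹ * (b ^ k)⁻¹ * a ^ n * b ^ k) =
      (((b ^ k)⁻¹ * (a ^ n)⁻¹ * b ^ k * a ^ n) * ((b ^ k)⁻¹ * (a ^ n)⁻¹ * b ^ k * a ^ n))⁻¹ := by
    group
  rw [h4, h3, inv_one]

end Pool.Agent.H6.E2
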