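import Pool.Agent.H17.E2.Ter
import Pool.Agent.H6.E2.Pow

/-!
# Exponent two: the squares of the edges have odd order

* `AE.u_comm`: `u` commutes with `A u A⁻¹`, `A = tt q r`, `u = uu p q r`;
* `AE.lam_comm_sq`: `[C², B²]² = 1` for two edges at one point;
* `AE.no_two_H`: the point stabiliser has no normal `2`-subgroup (`Q` of even order);
* `AE.lam_odd`: `L_x²` has odd order.
-/

set_option autoImplicit false

namespace ALoop

open Equiv Pool.Agent.H6.E2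

variable {Q : Type*} {G : Subgroup (Perm Q)} {L : Q → Perm Q} {e : Q}

namespace AE

/-- the final computation of `u_comm` in a group -/
theorem u_comm_aux {M : Type*} [Group M] {A B u u1 m z : M} (hu : u = A * B * A⁻¹ * B⁻¹)
    (huu : u * u = 1) (hu1 : u1 = A * u * A⁻¹) (hz : z = u * u1 * m) (hum : Commute u m)
    (hAm : A * m * A⁻¹ = A * u1 * A⁻¹ * u * m) (hzB : Commute z B) : Commute u u1 := by
  have hu' : u⁻¹ = u := inv_eq_of_mul_eq_one_left huu
  have huu1 : u1 * u1 = 1 := by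
    rw [hu1]
    calc A * u * A⁻¹ * (A * u * A⁻¹) = A * (u * u) * A⁻¹ := by group
      _ = 1 := by rw [huu]; group
  have hu1' : u1⁻¹ = u1 := inv_eq_of_mul_eq_one_left huu1
  -- `A z A⁻¹ = u1 u m`
  have h1 : A * z * A⁻¹ = u1 * u * m := by
    have h2 : A * z * A⁻¹ = (A * u * A⁻¹) * (A * u1 * A⁻¹) * (A * m * A⁻¹) := by rw [hz]; group
    rw [h2, hAm, ← hu1]
    calc u1 * (A * u1 * A⁻¹) * (A * u1 * A⁻¹ * u * m) = u1 * (A * (u1 * u1) * A⁻¹) * u * m := by
          group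
      _ = u1 * u * m := by rw [huu1]; group
  have hm : m = u1 * u * z := by
    rw [hz]
    calc m = u1 * u1 * m := by rw [huu1, one_mul]
      _ = u1 * (u * u) * u1 * m := by rw [huu, mul_one]
      _ = u1 * u * (u * u1 * m) := by group
  -- `z A z⁻¹ = k⁻¹ A`, `k = (u1 u)²`
  have h3 : z * A * z⁻¹ = (u1 * u * (u1 * u))⁻¹ * A := by
    have h4 : A * z = u1 * u * (u1 * u) * (z * A) := by
      calc A * z = (A * z * A⁻¹) * A := by group
        _ = u1 * u * m * A := by rw [h1]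
        _ = u1 * u * (u1 * u * z) * A := by rw [← hm]
        _ = _ := by group
    have h5 : z * A = (u1 * u * (u1 * u))⁻¹ * (A * z) := by rw [h4]; group
    rw [h5]; group
  -- `z u z⁻¹ = k⁻¹ u`
  have h6 : z * u * z⁻¹ = (u1 * u * (u1 * u))⁻¹ * u := by
    have h7 : z * u * z⁻¹ = u * u1 * (m * u * m⁻¹) * u1⁻¹ * u⁻¹ := by rw [hz]; group
    have h8 : m * u * m⁻¹ = u := by rw [← hum.eq]; group
    have h9 : (u1 * u * (u1 * u))⁻¹ = u * u1 * (u * u1) := by
      rw [mul_inv_rev, mul_inv_rev, hu', hu1']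
    rw [h7, h8, h9, hu', hu1']
    group
  -- `z u z⁻¹ = k⁻¹ A B A⁻¹ k B⁻¹`
  have hzB' : z * B * z⁻¹ = B := by rw [hzB.eq]; group
  have h10 : z * u * z⁻¹ = (z * A * z⁻¹) * (z * B * z⁻¹) * (z * A * z⁻¹)⁻¹ * (z * B * z⁻¹)⁻¹ := by
    conv_lhs => rw [hu]
    group
  rw [h6, h3, hzB'] at h10
  have h11 : u1 * u * (u1 * u) = 1 := by
    have h12 : A * B * A⁻¹ * B⁻¹ =
        A * B * A⁻¹ * (u1 * u * (u1 * u)) * B⁻¹ := by
      have h13 : (u1 * u * (u1 * u))⁻¹ * (A * B * A⁻¹ * B⁻¹) =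
          (u1 * u * (u1 * u))⁻¹ * (A * B * A⁻¹ * (u1 * u * (u1 * u)) * B⁻¹) := by
        rw [← hu, h10]; group
      exact mul_left_cancel h13
    have h14 : A * B * A⁻¹ * B⁻¹ = A * B * A⁻¹ * (u1 * u * (u1 * u)) * B⁻¹ := h12
    have h15 : (1 : M) = u1 * u * (u1 * u) := by
      have := congrArg (fun t => (A * B * A⁻¹)⁻¹ * t * B) h14
      simpa [mul_assoc] using this
    exact h15.symm
  exact (comm_of_sq huu1 huu h11).symm

/-- `u` commutes with `A u A⁻¹`, `A = tt q r` -/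
theorem u_comm (h : AE G L e) (p q r : Q) :
    Commute (uu L p q r) (tt L q r * uu L p q r * (tt L q r)⁻¹) := by
  obtain ⟨s, hs⟩ : ∃ s, s = tt L p q r := ⟨_, rfl⟩
  obtain ⟨A, hA⟩ : ∃ A, A = tt L q r := ⟨_, rfl⟩
  obtain ⟨u, hu⟩ : ∃ u, u = uu L p q r := ⟨_, rfl⟩
  have hAG : A ∈ G := by rw [hA]; exact h.mem_tt q r
  have huG : u ∈ G := by rw [hu]; exact h.mem_uu p q r
  have huu : u * u = 1 := by rw [hu]; exact h.uu_sq p q r
  have hu' : u⁻¹ = u := inv_eq_of_mul_eq_one_left huu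
  have hAp : A p = s := by rw [hA, hs, h.tt_rot q r p, h.tt_symm q p]
  have hAq : A q = r := by rw [hA]; exact h.tt_left q r
  have hAr : A r = q := by rw [hA]; exact h.tt_right q r
  have hus : u s = s := by rw [hu, hs]; exact h.uu_s p q r
  have hps : tt L p s = u * A := by rw [hs, hu, hA]; exact h.ps p q r
  obtain ⟨s1, hs1⟩ : ∃ s1, s1 = A s := ⟨_, rfl⟩
  have hup : u s1 = p := by
    have := h.tt_right p s
    rw [hps, Perm.mul_apply, ← hs1] at this
    exact this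
  have hup' : u p = s1 := by
    have : (u * u) s1 = s1 := by rw [huu]; rfl
    rwa [Perm.mul_apply, hup] at this
  have hss1 : tt L s s1 = A * u := by
    have := h.tt_conj hAG p s
    rw [hAp, ← hs1, hps] at this
    rw [← this]; group
  obtain ⟨s2, hs2⟩ : ∃ s2, s2 = A s1 := ⟨_, rfl⟩
  have h4 : tt L p s s1 = s2 := by
    have h5 := h.tt_rot s s1 p
    rw [hss1, Perm.mul_apply, hup', ← hs2, h.tt_symm s p] at h5
    exact h5.symm
  have hs1s2 : tt L s1 s2 = A * (A * u) * A⁻¹ := by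
    have := h.tt_conj hAG s s1
    rw [← hs1, ← hs2, hss1] at this
    exact this.symm
  have hu2 : uu L p s s1 = A * (A * u) * A⁻¹ * (u * A)⁻¹ := by
    have := h.rs p s s1
    rw [h4, hs1s2, hps] at this
    rw [this]; group
  obtain ⟨m, hm⟩ : ∃ m, m = tt L p s1 := ⟨_, rfl⟩
  have hAm : A * m * A⁻¹ = A * (A * u * A⁻¹) * A⁻¹ * u * m := by
    have h5 := h.qs p s s1
    rw [h4, hu2, ← hm] at h5
    have h6 := h.tt_conj hAG p s1
    rw [hAp, ← hs2, ← hm] at h6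
    rw [h6, h5, mul_inv_rev, hu']
    group
  have hum : Commute u m := by
    rw [hm]; exact h.tt_cent' huG hup' hup
  have hB : A * tt L p r * A⁻¹ = u * tt L p r := by
    have h5 := h.tt_conj hAG p r
    rw [hAp, hAr, h.tt_symm s q] at h5
    rw [h5, hs, hu]; exact h.qs p q r
  have hs1r : tt L s1 r = (A * u * A⁻¹) * u * tt L p r := by
    have h5 := h.tt_conj hAG s q
    rw [← hs1, hAq, h.tt_symm s q] at h5
    rw [← h5, hs, h.qs p q r, ← hu]
    calc A * (u * tt L p r) * A⁻¹ = (A * u * A⁻¹) * (A * tt L p r * A⁻¹) := by group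
      _ = _ := by rw [hB]; group
  obtain ⟨z, hz⟩ : ∃ z, z = u * (A * u * A⁻¹) * m := ⟨_, rfl⟩
  have hzB : Commute z (tt L p r) := by
    have h5 := h.prod_comm s1 p r
    have h6 : (tt L s1 r)⁻¹ * tt L s1 p = (tt L p r)⁻¹ * z := by
      rw [hs1r, hz, hm, h.tt_symm s1 p]
      have : (A * u * A⁻¹)⁻¹ = A * u * A⁻¹ := by
        calc (A * u * A⁻¹)⁻¹ = A * u⁻¹ * A⁻¹ := by group
          _ = _ := by rw [hu']
      rw [mul_inv_rev, mul_inv_rev, hu', this]
      group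
    rw [h6] at h5
    unfold Commute SemiconjBy
    calc z * tt L p r = tt L p r * ((tt L p r)⁻¹ * z * tt L p r) := by group
      _ = tt L p r * (tt L p r * ((tt L p r)⁻¹ * z)) := by rw [h5]
      _ = tt L p r * z := by group
  rw [← hu, ← hA]
  exact u_comm_aux (A := A) (B := tt L p r) (u := u) (u1 := A * u * A⁻¹) (m := m) (z := z)
    (by rw [hu, hA]; rfl) huu rfl hz hum hAm hzB

/-- `u` is cyclically symmetric -/
theorem uu_rot (h : AE G L e) (p q r : Q) : uu L r p q = uu L p q r := by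
  -- `[C, A] = [A, C]⁻¹ = u`
  have h1 := h.uu_inv2 p q r
  rw [h.uu_eq3] at h1
  have h2 : uu L r p q = tt L p q * tt L q r * (tt L p q)⁻¹ * (tt L q r)⁻¹ := by
    unfold uu; rw [h.tt_symm r q]
  rw [h2, ← inv_inj, h1]
  group

/-- `[C², B²]² = 1` for two edges at one point -/
theorem lam_comm_sq (h : AE G L e) (p q r : Q) :
    ((tt L p q * tt L p q)⁻¹ * (tt L p r * tt L p r)⁻¹ * (tt L p q * tt L p q) *
        (tt L p r * tt L p r)) *
      ((tt L p q * tt L p q)⁻¹ * (tt L p r * tt L p r)⁻¹ * (tt L p q * tt L p q) *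
        (tt L p r * tt L p r)) = 1 := by
  obtain ⟨C, hC⟩ : ∃ C, C = tt L p q := ⟨_, rfl⟩
  obtain ⟨B, hB⟩ : ∃ B, B = tt L p r := ⟨_, rfl⟩
  obtain ⟨u, hu⟩ : ∃ u, u = uu L p q r := ⟨_, rfl⟩
  have hCG : C ∈ G := by rw [hC]; exact h.mem_tt p q
  have huu : u * u = 1 := by rw [hu]; exact h.uu_sq p q r
  have h1 : Commute u (C * u * C⁻¹) := by
    have := h.u_comm r p q
    rw [h.uu_rot, ← hu, ← hC] at this
    exact this
  have h2 : C * B * C⁻¹ = u * B := by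
    rw [hu, h.uu_eq2, ← hC, ← hB]; group
  obtain ⟨v, hv⟩ : ∃ v, v = C * u * C⁻¹ * u := ⟨_, rfl⟩
  have hCu : C * u * C⁻¹ * (C * u * C⁻¹) = 1 := by
    calc C * u * C⁻¹ * (C * u * C⁻¹) = C * (u * u) * C⁻¹ := by group
      _ = 1 := by rw [huu]; group
  have hvv : v * v = 1 := by
    rw [hv]
    calc C * u * C⁻¹ * u * (C * u * C⁻¹ * u) = C * u * C⁻¹ * (u * (C * u * C⁻¹)) * u := by group
      _ = C * u * C⁻¹ * (C * u * C⁻¹ * u) * u := by rw [h1.eq]
      _ = (C * u * C⁻¹ * (C * u * C⁻¹)) * (u * u) := by group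
      _ = 1 := by rw [hCu, huu, one_mul]
  have hv' : v⁻¹ = v := inv_eq_of_mul_eq_one_left hvv
  have h3 : C * C * B * (C * C)⁻¹ = v * B := by
    calc C * C * B * (C * C)⁻¹ = C * (C * B * C⁻¹) * C⁻¹ := by group
      _ = C * (u * B) * C⁻¹ := by rw [h2]
      _ = C * u * C⁻¹ * (C * B * C⁻¹) := by group
      _ = C * u * C⁻¹ * (u * B) := by rw [h2]
      _ = v * B := by rw [hv]; group
  have h4 : tt L p (C (C r)) = v * B := by
    have h5 := h.tt_conj (G.mul_mem hCG hCG) p r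
    have h6 : (C * C) p = p := by
      rw [Perm.mul_apply, hC, h.tt_left, h.tt_right]
    rw [h6, ← hB, h3] at h5
    rw [h5]; rfl
  have h7 := h.uu_sq p r (C (C r))
  rw [h.uu_eq2, h4, ← hB] at h7
  have h8 : B * (v * B) * B⁻¹ * (v * B)⁻¹ = B * v * B⁻¹ * v := by
    rw [mul_inv_rev, hv']; group
  rw [h8] at h7
  have hBv : B * v * B⁻¹ * (B * v * B⁻¹) = 1 := by
    calc B * v * B⁻¹ * (B * v * B⁻¹) = B * (v * v) * B⁻¹ := by group
      _ = 1 := by rw [hvv]; group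
  have h9 : Commute (B * v * B⁻¹) v := comm_of_sq hBv hvv h7
  have h10 : C * C * (B * B) * (C * C)⁻¹ * (B * B)⁻¹ = v * (B * v * B⁻¹) := by
    calc C * C * (B * B) * (C * C)⁻¹ * (B * B)⁻¹
        = (C * C * B * (C * C)⁻¹) * (C * C * B * (C * C)⁻¹) * (B * B)⁻¹ := by group
      _ = v * B * (v * B) * (B * B)⁻¹ := by rw [h3]
      _ = _ := by group
  have h11 : C * C * (B * B) * (C * C)⁻¹ * (B * B)⁻¹ *
      (C * C * (B * B) * (C * C)⁻¹ * (B * B)⁻¹) = 1 := by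
    rw [h10]
    calc v * (B * v * B⁻¹) * (v * (B * v * B⁻¹)) = v * ((B * v * B⁻¹) * v) * (B * v * B⁻¹) := by
          group
      _ = v * (v * (B * v * B⁻¹)) * (B * v * B⁻¹) := by rw [h9.eq]
      _ = (v * v) * (B * v * B⁻¹ * (B * v * B⁻¹)) := by group
      _ = 1 := by rw [hvv, hBv, one_mul]
  rw [← hC, ← hB]
  calc (C * C)⁻¹ * (B * B)⁻¹ * (C * C) * (B * B) * ((C * C)⁻¹ * (B * B)⁻¹ * (C * C) * (B * B))
      = (C * C)⁻¹ * (B * B)⁻¹ * (C * C * (B * B) * (C * C)⁻¹ * (B * B)⁻¹ *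
          (C * C * (B * B) * (C * C)⁻¹ * (B * B)⁻¹)) * ((B * B) * (C * C)) := by group
    _ = 1 := by rw [h11]; group

/-- the point stabiliser has no normal `2`-subgroup -/
theorem no_two_H [Finite Q] (h : AE G L e) (hev : Even (Nat.card Q)) {N : Subgroup (Perm Q)}
    (hNG : N ≤ G) (hfix : ∀ n ∈ N, n e = e)
    (hnorm : ∀ g ∈ G, g e = e → ∀ n ∈ N, g * n * g⁻¹ ∈ N) (hp : IsPGroup 2 N) : N = ⊥ := by
  classical
  have : Fact (Nat.Prime 2) := ⟨Nat.prime_two⟩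
  -- a second fixed point
  have he : e ∈ MulAction.fixedPoints N Q := by
    intro n; exact hfix n n.2
  obtain ⟨x, hx, hex⟩ := hp.exists_fixed_point_of_prime_dvd_card_of_fixed_point Q
    (even_iff_two_dvd.1 hev) he
  have hx' : ∀ n ∈ N, n x = x := fun n hn => hx ⟨n, hn⟩
  have hnorm' : ∀ g ∈ G, g e = e → ∀ n, g * n * g⁻¹ ∈ N ↔ n ∈ N := by
    intro g hg hge n
    constructor
    · intro h1
      have h2 : g⁻¹ e = e := by rw [Perm.inv_eq_iff_eq, hge]
      have h3 := hnorm g⁻¹ (G.inv_mem hg) h2 _ h1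
      have h4 : g⁻¹ * (g * n * g⁻¹) * g⁻¹⁻¹ = n := by group
      rwa [h4] at h3
    · exact hnorm g hg hge n
  have hr := h.prim (fun a b => ∀ n : Perm Q, (L a)⁻¹ * n * L a ∈ N ↔ (L b)⁻¹ * n * L b ∈ N)
    ⟨fun _ _ => Iff.rfl, fun hab n => (hab n).symm, fun hab hbc n => (hab n).trans (hbc n)⟩ ?_
  · have hLe : L e = 1 := h.Le1
    rcases hr with hr | hr
    · exfalso
      apply hex
      apply hr
      intro n
      rw [hLe]
      have key : ∀ m ∈ N, (L x)⁻¹ * m * L x = m := by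
        intro m hm
        have h1 := h.equi m (hNG hm) (hfix m hm) x
        rw [hx' m hm] at h1
        have h2 : m * L x = L x * m := by
          calc m * L x = (m * L x * m⁻¹) * m := by group
            _ = L x * m := by rw [h1]
        calc (L x)⁻¹ * m * L x = (L x)⁻¹ * (m * L x) := by group
          _ = (L x)⁻¹ * (L x * m) := by rw [h2]
          _ = m := by group
      constructor
      · intro h1
        have h2 : n ∈ N := by simpa using h1
        rw [key n h2]; exact h2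
      · intro h1
        have h2 := key _ h1
        have h3 : n = (L x)⁻¹ * n * L x := by
          have h4 : L x * ((L x)⁻¹ * ((L x)⁻¹ * n * L x) * L x) * (L x)⁻¹ =
              L x * ((L x)⁻¹ * n * L x) * (L x)⁻¹ := by rw [h2]
          have h5 : L x * ((L x)⁻¹ * ((L x)⁻¹ * n * L x) * L x) * (L x)⁻¹ =
              (L x)⁻¹ * n * L x := by group
          have h6 : L x * ((L x)⁻¹ * n * L x) * (L x)⁻¹ = n := by group
          rw [h5, h6] at h4
          exact h4.symm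
        have : n ∈ N := by rw [h3]; exact h1
        simpa using this
    · rw [Subgroup.eq_bot_iff_forall]
      intro n hn
      ext b
      have h1 := (hr e b n).1 (by rw [hLe]; simpa using hn)
      have h2 := hfix _ h1
      rw [Perm.mul_apply, Perm.mul_apply, h.Le, Perm.inv_eq_iff_eq, h.Le] at h2
      exact h2
  · intro g hg a b hab n
    have conj1 : ∀ c : Q, (L (g c))⁻¹ * n * L (g c) ∈ N ↔ (L c)⁻¹ * (g⁻¹ * n * g) * L c ∈ N := by
      intro c
      have hk : (L (g c))⁻¹ * g * L c ∈ G :=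
        G.mul_mem (G.mul_mem (G.inv_mem (h.memL _)) hg) (h.memL c)
      have hke : ((L (g c))⁻¹ * g * L c) e = e := by
        rw [Perm.mul_apply, Perm.mul_apply, h.Le, Perm.inv_eq_iff_eq, h.Le]
      have h1 := hnorm' _ hk hke ((L c)⁻¹ * (g⁻¹ * n * g) * L c)
      rw [← h1]
      have h2 : (L (g c))⁻¹ * g * L c * ((L c)⁻¹ * (g⁻¹ * n * g) * L c) *
          ((L (g c))⁻¹ * g * L c)⁻¹ = (L (g c))⁻¹ * n * L (g c) := by group
      rw [h2]
    rw [conj1, conj1]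
    exact hab _

theorem even_card [Finite Q] (h : AE G L e) {w : Q} (hw : w ≠ e) : Even (Nat.card Q) := by
  classical
  have := Fintype.ofFinite Q
  have hinj : ∀ x y : Q, L x y = w ↔ (L x)⁻¹ w = y := by
    intro x y
    rw [Perm.inv_eq_iff_eq]
    exact eq_comm
  have hinv : ∀ x : Q, (L ((L x)⁻¹ w))⁻¹ w = x := by
    intro x
    rw [← hinj, h.com, hinj]
  obtain ⟨σ, hσ⟩ : ∃ σ : Perm Q, ∀ x, σ x = (L x)⁻¹ w :=
    ⟨⟨fun x => (L x)⁻¹ w, fun x => (L x)⁻¹ w, hinv, hinv⟩, fun _ => rfl⟩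
  have h2 : σ ^ 2 = 1 := by
    ext x
    rw [pow_two, Perm.mul_apply, hσ, hσ, hinv]; rfl
  have h3 := Perm.two_dvd_card_support h2
  have h4 : σ.support = Finset.univ := by
    ext x
    simp only [Perm.mem_support, Finset.mem_univ, iff_true]
    intro h5
    rw [hσ, ← hinj, h.sq] at h5
    exact hw h5.symm
  rw [h4, Finset.card_univ] at h3
  rw [Nat.card_eq_fintype_card]
  exact even_iff_two_dvd.2 h3

/-- `L_x²` has odd order -/
theorem lam_odd [Finite Q] (h : AE G L e) (x : Q) : Odd (orderOf (L x * L x)) := by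
  classical
  by_cases hxe : x = e
  · rw [hxe, h.Le1]; simp
  have hev : Even (Nat.card Q) := h.even_card hxe
  by_contra hodd
  rw [Nat.not_odd_iff_even] at hodd
  obtain ⟨n, hn⟩ := hodd
  -- the point stabiliser
  obtain ⟨K, hK⟩ : ∃ K : Subgroup (Perm Q), ∀ g, g ∈ K ↔ g ∈ G ∧ g e = e := by
    refine ⟨{ carrier := {g | g ∈ G ∧ g e = e}, mul_mem' := ?_, one_mem' := ?_, inv_mem' := ?_ },
      fun g => Iff.rfl⟩
    · rintro a b ⟨ha, ha'⟩ ⟨hb, hb'⟩
      exact ⟨G.mul_mem ha hb, by rw [Perm.mul_apply, hb', ha']⟩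
    · exact ⟨G.one_mem, rfl⟩
    · rintro a ⟨ha, ha'⟩
      exact ⟨G.inv_mem ha, by rw [Perm.inv_eq_iff_eq, ha']⟩
  obtain ⟨S, hS⟩ : ∃ S : Set (Perm Q), S = {a | ∃ y, a = L y * L y} := ⟨_, rfl⟩
  have hSK : ∀ a ∈ S, a ∈ K := by
    rw [hS]; rintro _ ⟨y, rfl⟩
    exact (hK _).2 ⟨G.mul_mem (h.memL y) (h.memL y), by rw [Perm.mul_apply, h.Le, h.sq]⟩
  have hSc : ∀ g ∈ K, ∀ a ∈ S, g⁻¹ * a * g ∈ S := by
    rw [hS]; rintro g hg _ ⟨y, rfl⟩
    obtain ⟨hg1, hg2⟩ := (hK g).1 hg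
    have hg3 : g⁻¹ e = e := by rw [Perm.inv_eq_iff_eq, hg2]
    have h1 := h.equi g⁻¹ (G.inv_mem hg1) hg3 y
    refine ⟨g⁻¹ y, ?_⟩
    rw [← h1]; group
  have hcc : ∀ a ∈ S, ∀ b ∈ S, (a⁻¹ * b⁻¹ * a * b) * (a⁻¹ * b⁻¹ * a * b) = 1 := by
    rw [hS]; rintro _ ⟨y, rfl⟩ _ ⟨w, rfl⟩
    have h1 := h.lam_comm_sq e y w
    rw [h.tt_e, h.tt_e] at h1
    exact h1
  have hpos : 0 < orderOf (L x * L x) := orderOf_pos _
  obtain ⟨i, hi⟩ : ∃ i, i = (L x * L x) ^ n := ⟨_, rfl⟩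
  have hi2 : i * i = 1 := by
    rw [hi, ← pow_add, ← hn, pow_orderOf_eq_one]
  have hi1 : i ≠ 1 := by
    rw [hi]
    intro h1
    have h2 := orderOf_dvd_of_pow_eq_one h1
    have h3 := Nat.le_of_dvd (by omega) h2
    omega
  have hxS : L x * L x ∈ S := by rw [hS]; exact ⟨x, rfl⟩
  have hiK : i ∈ K := by rw [hi]; exact K.pow_mem (hSK _ hxS) n
  -- the class of `i` in `K`
  obtain ⟨D, hD⟩ : ∃ D : Set K, D = {d : K | ∃ g ∈ K, (d : Perm Q) = g⁻¹ * i * g} := ⟨_, rfl⟩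
  have hDc : ∀ g : K, ∀ a ∈ D, g * a * g⁻¹ ∈ D := by
    rw [hD]; rintro g a ⟨k, hk, hak⟩
    refine ⟨k * (g : Perm Q)⁻¹, K.mul_mem hk (K.inv_mem g.2), ?_⟩
    push_cast
    rw [hak]; group
  have hform : ∀ d ∈ D, ∃ a ∈ S, (d : Perm Q) = a ^ n := by
    rw [hD]; rintro d ⟨g, hg, hd⟩
    refine ⟨g⁻¹ * (L x * L x) * g, hSc g hg _ hxS, ?_⟩
    rw [hd, hi]
    have := conj_pow (i := n) (a := g⁻¹) (b := L x * L x)
    rw [inv_inv] at this
    rw [this]
  have hDsq : ∀ d ∈ D, (d : Perm Q) * d = 1 := by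
    rw [hD]; rintro d ⟨g, hg, hd⟩
    rw [hd]
    calc g⁻¹ * i * g * (g⁻¹ * i * g) = g⁻¹ * (i * i) * g := by group
      _ = 1 := by rw [hi2]; group
  have hD2 : ∀ a ∈ D, ∀ b ∈ D, IsPGroup 2 (Subgroup.closure {a, b}) := by
    intro a ha b hb
    obtain ⟨a', ha', haa⟩ := hform a ha
    obtain ⟨b', hb', hbb⟩ := hform b hb
    have h1 := pow_trick2 hSK hSc hcc ha' hb' n n
    rw [← haa, ← hbb] at h1
    have h2 : (a : Perm Q)⁻¹ = a := inv_eq_of_mul_eq_one_left (hDsq a ha)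
    have h3 : (b : Perm Q)⁻¹ = b := inv_eq_of_mul_eq_one_left (hDsq b hb)
    rw [h2, h3] at h1
    refine Pool.Agent.H81.LO.dihedral_two (k := 2) (Subtype.ext (hDsq a ha))
      (Subtype.ext (hDsq b hb)) (Subtype.ext ?_)
    push_cast
    rw [← h1]
    simp only [pow_succ, pow_zero, one_mul, mul_assoc]
  have h3 := Pool.Agent.H81.LO.baer_two hDc hD2
  have hnorm : ∀ g : K, ∀ n ∈ Subgroup.closure D, g * n * g⁻¹ ∈ Subgroup.closure D := by
    intro g m hm
    induction hm using Subgroup.closure_induction with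
    | mem a ha => exact Subgroup.subset_closure (hDc g a ha)
    | one => simp
    | mul a b _ _ ha hb =>
      have e1 : g * (a * b) * g⁻¹ = (g * a * g⁻¹) * (g * b * g⁻¹) := by group
      rw [e1]; exact Subgroup.mul_mem _ ha hb
    | inv a _ ha =>
      have e1 : g * a⁻¹ * g⁻¹ = (g * a * g⁻¹)⁻¹ := by group
      rw [e1]; exact Subgroup.inv_mem _ ha
  have hbot := h.no_two_H hev (N := (Subgroup.closure D).map K.subtype)
    (by rintro _ ⟨y, _, rfl⟩; exact ((hK _).1 y.2).1)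
    (by rintro _ ⟨y, _, rfl⟩; exact ((hK _).1 y.2).2)
    (by
      rintro g hg hge _ ⟨y, hy, rfl⟩
      exact ⟨⟨g, (hK g).2 ⟨hg, hge⟩⟩ * y * ⟨g, (hK g).2 ⟨hg, hge⟩⟩⁻¹,
        hnorm ⟨g, (hK g).2 ⟨hg, hge⟩⟩ y hy, rfl⟩)
    (h3.map K.subtype)
  apply hi1
  have h4 : i ∈ (Subgroup.closure D).map K.subtype := by
    refine ⟨⟨i, hiK⟩, Subgroup.subset_closure ?_, rfl⟩
    rw [hD]
    exact ⟨1, K.one_mem, by simp⟩
  rw [hbot, Subgroup.mem_bot] at h4
  exact h4

/-- all edges: `t(p,q)²` has odd order -/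
theorem lam_odd' [Finite Q] (h : AE G L e) (p q : Q) :
    Odd (orderOf (tt L p q * tt L p q)) := by
  have h1 : tt L p q * tt L p q =
      L p * (L ((L p)⁻¹ q) * L ((L p)⁻¹ q)) * (L p)⁻¹ := by
    unfold tt; group
  rw [h1, ← MulAut.conj_apply, MulEquiv.orderOf_eq]
  exact h.lam_odd _

end AE

end ALoop
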